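import Pool.Agent.IGQ.Main

/-!
# No finite complete rewriting system for `IG(E(𝒫ₙ))`, `n ≥ 5` (MP_e3ace9_al)

Negative answer to Q1: for every `n ≥ 5` the free idempotent generated semigroup `IG(E(𝒫ₙ))` over the
biordered set of idempotents of the partition monoid `𝒫ₙ` admits no finite complete (terminating and
confluent) rewriting system over any finite alphabet.

The definitions are in `Pool/Agent/IGP/Defs.lean` (`Part n`, `IG S`) and `Pool/Agent/IGQ/Fcrs.lean`
(`RStep`, `Terminating`, `Confluent`, `HasFCRS`).  (The same proof gives the statement for monoid
presentations, `no_monoid_fcrs` in `Pool/Agent/IGQ/Main.lean`.)

Idea of the proof (details in `Pool/Agent/IGQ/`).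
1. A marked word is a factorisation `(u, i, v)` with a point `i` on the row between `u` and `v` of the
   stacked picture.  Marks are considered up to connectedness.  Rewriting steps act on marked words
   as long as the component of the mark meets the complement of every short factor; there is an
   invariant of marked factorisations (`PP`) which guarantees this: the component does not reach the
   first row, and the part of the word before its first row is a regular element; dually below.
   For marked words with this invariant the marked rewriting is terminating and locally confluent
   (Newman), so a word of this type has trivial monodromy: if `x g = x` and `g y = y` and `g` connects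
   the points `i` and `j` then `i` and `j` are already connected between `x` and `y` (`Sys.main`).
2. With `e = {j,k,y}`, `e' = {j,k,x}`, `e₁ = {x}` (subidentities), the elements
   `t = e₁ (e e')^N e e₁` have only long factorisations (the number of factors in a factorisation
   into regular elements with dropping ranks is an invariant), there is an element `g` of rank
   `n - 1`, a product of four idempotents, exchanging the strands `j` and `k`, with `e₁ g = e₁`,
   `g e = e g`, `g e' = e' g`, `g e₁ = e₁`, and the strands `j`, `k` are two different floating
   components of `t` which are exchanged by `g`: contradiction to 1.
-/

namespace Pool.Agent.Results.MP_e3ace9_al.NoCompleteRewriting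

open Pool.Agent.IGP Pool.Agent.IGQ

/-- **Q1, negative answer**: for `n ≥ 5` the semigroup `IG(E(𝒫ₙ))` has no finite complete rewriting
system. -/
theorem result (n : ℕ) (hn : 5 ≤ n) : ¬ HasFCRS (IG (Part n)) :=
  no_fcrs hn

end Pool.Agent.Results.MP_e3ace9_al.NoCompleteRewriting
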