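import Pool.Agent.IGP.Final

/-!
# The free idempotent generated semigroup over the partition monoid is residually finite (MP_e3ace9_al)

Positive answer to Q2 for every `n`: `IG(E(𝒫ₙ))` is residually finite.

The definitions are in `Pool/Agent/IGP/Defs.lean`:
* `Part n`: the set partitions of `[n] ∪ [n]'` (a structure around `Setoid (Fin n ⊕ Fin n)`) with the
  product of the partition monoid `𝒫ₙ` (stack the two pictures, take connected components of the
  combined graph, keep the traces on the outer rows) and the identity partition;
* `IG S`: the semigroup presented by generators `x_e` (`e` idempotent of `S`) and relations
  `x_e x_f = x_{ef}` for the basic pairs `(e, f)`, i.e. `{ef, fe} ∩ {e, f} ≠ ∅`;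
* `ResiduallyFinite T`: any two distinct elements of `T` are separated by a homomorphism to a finite
  semigroup.

Idea of the proof (details in `Pool/Agent/IGP/`).
1. Call a word over the idempotents regular if it contains a letter of the same rank as its product.
   Every word is a product of regular factors with consecutive products dropping in rank, and for
   every finite quotient `θ` the set of words having such a factorisation, with tuple of `θ`-values
   move-equivalent to a given one (moves: `(…, t·e, t', …) ~ (…, t, e·t', …)`) is closed under the
   defining relations and recognisable.  So two words not separated by finite quotients have
   factorisations that are move-equivalent modulo every finite quotient.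
2. Rank `n-1` and `n` factors never move, and regular elements of these ranks are separated by
   finite quotients, since the relations there are those of a free groupoid (residual finiteness
   of free groups).
3. Regular elements of rank `r ≤ n-2` are determined by the underlying partition and an integer (a
   signed number of floating components): a cocycle extension of `𝒫ₙ` by `ℤ`.  This uses the
   simple connectivity of the complex of injections `[r] → [n]` (`n ≥ r+2`).
4. So the problem becomes one on graphs labelled by `ℤ^m`, where subgroups are closed in the
   profinite topology, and paths of labels lift back to `IG`.
-/

namespace Pool.Agent.Results.MP_e3ace9_al.ResiduallyFiniteIG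

open Pool.Agent.IGP

/-- **Q2**: for every `n ≥ 1` the free idempotent generated semigroup `IG(E(𝒫ₙ))` over the biordered
set of idempotents of the partition monoid `𝒫ₙ` is residually finite. -/
theorem result (n : ℕ) (_hn : 1 ≤ n) : ResiduallyFinite (IG (Part n)) :=
  final n

end Pool.Agent.Results.MP_e3ace9_al.ResiduallyFiniteIG
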